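import Pool.Agent.W231.G.Main
import Pool.Agent.W231.R.Main

set_option autoImplicit false

/-!
Families of divisors of `1 - X ^ k`.
-/

namespace Pool.Agent.W231.G

open NumberField IsDedekindDomain Height Finset Polynomial Pool.Agent.W231.V Pool.Agent.W231.R
  Pool.Agent.W231.M

variable {K : Type*} [Field K] [CharZero K]

lemma polyA_dvd {k : ℕ} (hk : 1 ≤ k) {ζ : K} (hζ : IsPrimitiveRoot ζ k) {T : Finset ℕ}
    (hT : T ⊆ range k) : polyA ζ T ∣ 1 - X ^ k := by
  refine ⟨polyA ζ (range k \ T), ?_⟩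
  refine Polynomial.funext fun t => ?_
  rw [eval_mul, polyA_eval, polyA_eval, fA_mul hk hζ hT]
  simp

lemma polyA_eval_zero (ζ : K) (T : Finset ℕ) : (polyA ζ T).eval 0 = 1 := by
  rw [polyA_eval, fA_zero]

/-- normalisation of monic divisors -/
lemma family_monic {k m : ℕ} (hk : 1 ≤ k) (Ps : Finset K[X])
    (hPs : ∀ P ∈ Ps, P.Monic ∧ P ∣ X ^ k - 1 ∧ P.natDegree ≤ m) :
    ∃ Ps' : Finset K[X], Ps'.card = Ps.card ∧
      ∀ P ∈ Ps', P.eval 0 = 1 ∧ P ∣ 1 - X ^ k ∧ P.natDegree ≤ m := by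
  classical
  have h0 : ∀ P ∈ Ps, P.eval 0 ≠ 0 := by
    intro P hP h
    obtain ⟨Q, hQ⟩ := (hPs P hP).2.1
    have h1 := congrArg (eval 0) hQ
    rw [eval_mul, h, zero_mul] at h1
    simp [show k ≠ 0 by omega] at h1
  refine ⟨Ps.image fun P => C (P.eval 0)⁻¹ * P, ?_, ?_⟩
  · refine Finset.card_image_of_injOn fun P hP P' hP' h => ?_
    have h1 : C (P.eval 0)⁻¹ * P = C (P'.eval 0)⁻¹ * P' := h
    have h2 := congrArg leadingCoeff h1
    rw [leadingCoeff_mul, leadingCoeff_mul, leadingCoeff_C, leadingCoeff_C,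
      (hPs P hP).1.leadingCoeff, (hPs P' hP').1.leadingCoeff, mul_one, mul_one] at h2
    rw [h2] at h1
    exact mul_left_cancel₀ (by
      rw [Ne, C_eq_zero]
      exact inv_ne_zero (h0 P' hP')) h1
  · intro R hR
    obtain ⟨P, hP, rfl⟩ := Finset.mem_image.1 hR
    have hc := inv_ne_zero (h0 P hP)
    refine ⟨?_, ?_, ?_⟩
    · rw [eval_mul, eval_C, inv_mul_cancel₀ (h0 P hP)]
    · rw [C_mul_dvd hc]
      have : (1 - X ^ k : K[X]) = -(X ^ k - 1) := by ring
      rw [this, dvd_neg]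
      exact (hPs P hP).2.1
    · exact (natDegree_C_mul_le _ _).trans (hPs P hP).2.2

/-- the divisors with integer coefficients -/
lemma family_int (K : Type*) [Field K] [CharZero K] {k m : ℕ} (hk : 1 ≤ k) (hkm : k ≤ m) :
    ∃ Ps : Finset K[X], Ps.card = 2 ^ k.divisors.card ∧
      ∀ P ∈ Ps, P.eval 0 = 1 ∧ P ∣ 1 - X ^ k ∧ P.natDegree ≤ m := by
  classical
  set φ : ℤ[X] → K[X] := Polynomial.map (Int.castRingHom K) with hφ
  have hinj : Function.Injective φ := Polynomial.map_injective _ Int.cast_injective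
  refine ⟨(facs k).image φ, ?_, ?_⟩
  · rw [Finset.card_image_of_injective _ hinj, card_facs]
  · intro P hP
    obtain ⟨R, hR, rfl⟩ := Finset.mem_image.1 hP
    unfold facs at hR
    obtain ⟨T, hT, rfl⟩ := Finset.mem_image.1 hR
    rw [Finset.mem_powerset] at hT
    refine ⟨?_, ?_, ?_⟩
    · rw [hφ, eval_zero_map, fac_eval_zero hT, map_one]
    · have h1 := fac_mul hk hT
      have h2 := congrArg φ h1
      simp only [hφ, Polynomial.map_mul, Polynomial.map_sub, Polynomial.map_one,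
        Polynomial.map_pow, Polynomial.map_X] at h2
      exact ⟨_, h2.symm⟩
    · exact (natDegree_map_le).trans ((fac_natDegree hk hT).trans hkm)

/-- the divisors if there are enough roots of unity -/
lemma family_root {k m : ℕ} (hk : 1 ≤ k) {ζ : K} (hζ : IsPrimitiveRoot ζ k) :
    ∃ Ps : Finset K[X], Ps.card = ∑ n ∈ range (m + 1), k.choose n ∧
      ∀ P ∈ Ps, P.eval 0 = 1 ∧ P ∣ 1 - X ^ k ∧ P.natDegree ≤ m := by
  classical
  refine ⟨((range (m + 1)).biUnion fun j => powersetCard j (range k)).image (polyA ζ), ?_, ?_⟩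
  · rw [Finset.card_image_of_injOn ((polyA_inj hζ).mono fun T hT => ?_), Finset.card_biUnion]
    · simp only [Finset.card_powersetCard, Finset.card_range]
    · intro i _ j _ hij
      exact Finset.pairwise_disjoint_powersetCard (range k) hij
    · rw [Finset.mem_coe, Finset.mem_biUnion] at hT
      obtain ⟨j, _, hj⟩ := hT
      rw [Finset.mem_coe, Finset.mem_powerset]
      exact (Finset.mem_powersetCard.1 hj).1
  · intro P hP
    obtain ⟨T, hT', rfl⟩ := Finset.mem_image.1 hP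
    obtain ⟨j, hj, hTj⟩ := Finset.mem_biUnion.1 hT'
    rw [Finset.mem_powersetCard] at hTj
    refine ⟨polyA_eval_zero ζ T, polyA_dvd hk hζ hTj.1, ?_⟩
    rw [polyA_natDegree (hζ.ne_zero (by omega)), hTj.2]
    exact Nat.lt_succ_iff.1 (Finset.mem_range.1 hj)

end Pool.Agent.W231.G
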