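import Pool.Agent.W231.G.Cnt
import Pool.Agent.W231.R.Count
import Pool.Agent.W231.M.Main

set_option autoImplicit false

/-!
The truncated Vojta inequality on the product of two lines: degree of the exceptional set.
-/

namespace Pool.Agent.W231.G

open NumberField IsDedekindDomain Height Finset Polynomial Pool.Agent.W231.V Pool.Agent.W231.R
  Pool.Agent.W231.M

variable {K : Type*} [Field K] [NumberField K]

lemma weight_eq : (totalWeight K : ℝ) = (Module.finrank ℚ K : ℝ) := by
  rw [← sum_mult]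
  exact_mod_cast InfinitePlace.sum_mult_eq

lemma eq_of_ne {i j l : Fin 2} (hij : i ≠ j) (hl : l ≠ i) : l = j := by
  revert i j l
  decide

lemma sum_two {i j : Fin 2} (hij : i ≠ j) (f : Fin 2 → ℝ) : ∑ l, f l = f i + f j := by
  rw [Fin.sum_univ_two]
  fin_cases i <;> fin_cases j
  · exact absurd rfl hij
  · rfl
  · exact add_comm _ _
  · exact absurd rfl hij

theorem main5 (F : MvPolynomial (Fin 2) K) (hF0 : F ≠ 0)
    (hdiv : MvPolynomial.X 0 * (MvPolynomial.X 0 - 1) *
      (MvPolynomial.X 1 * (MvPolynomial.X 1 - 1)) ∣ F)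
    {Ω : Type*} [Field Ω] [Algebra K Ω] (G : MvPolynomial (Fin 2) Ω) (hG : G ≠ 0) {ε : ℝ} (C : ℝ)
    {i j : Fin 2} (hij : i ≠ j) {k m : ℕ} (hk : 1 ≤ k)
    (hεk : (k + m) * ε < Module.finrank ℚ K) (Ps : Finset K[X])
    (hPs : ∀ P ∈ Ps, P.eval 0 = 1 ∧ P ∣ 1 - X ^ k ∧ P.natDegree ≤ m)
    (hlt : G.degreeOf j + F.degreeOf j < Ps.card) :
    ∃ x : Fin 2 → K, MvPolynomial.eval x F ≠ 0 ∧
      MvPolynomial.eval (fun l => algebraMap K Ω (x l)) G ≠ 0 ∧
      ∑ᶠ v : HeightOneSpectrum (𝓞 K), min (ell v) (lam v F x) <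
        ∑ l, ((F.degreeOf l : ℝ) - 1) * logHeight₁ (x l) -
          ε * (∑ l, logHeight₁ (x l) / Module.finrank ℚ K) - C := by
  classical
  have : CharZero Ω := charZero_of_injective_algebraMap (algebraMap K Ω).injective
  set φ : K →+* Ω := algebraMap K Ω with hφ
  -- the remaining factor
  obtain ⟨E, hE⟩ : ∃ E, F = (MvPolynomial.X i * (MvPolynomial.X i - 1)) *
      (MvPolynomial.X j * (MvPolynomial.X j - 1)) * E := by
    obtain ⟨E, hE⟩ := hdiv
    refine ⟨E, ?_⟩
    rw [hE]
    fin_cases i <;> fin_cases j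
    · exact absurd rfl hij
    · rfl
    · simp only [Fin.mk_one, Fin.zero_eta]; ring
    · exact absurd rfl hij
  have hE0 : E ≠ 0 := by
    rintro rfl
    exact hF0 (by rw [hE, mul_zero])
  have hX : ∀ l : Fin 2, (MvPolynomial.X l : MvPolynomial (Fin 2) K) ≠ 0 := fun l =>
    MvPolynomial.X_ne_zero l
  have hX1 : ∀ l : Fin 2, (MvPolynomial.X l - 1 : MvPolynomial (Fin 2) K) ≠ 0 := by
    intro l h
    have := congrArg (MvPolynomial.eval (fun _ => (0 : K))) h
    simp at this
  have hdX1 : ∀ l n : Fin 2, (MvPolynomial.X l - 1 : MvPolynomial (Fin 2) K).degreeOf n ≥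
      if l = n then 1 else 0 := by
    intro l n
    split_ifs with h
    · subst h
      have hmem : (Finsupp.single l 1 : Fin 2 →₀ ℕ) ∈
          (MvPolynomial.X l - 1 : MvPolynomial (Fin 2) K).support := by
        have hne : ¬ ((0 : Fin 2 →₀ ℕ) = Finsupp.single l 1) := by
          intro h
          have := DFunLike.congr_fun h l
          simp at this
        rw [MvPolynomial.mem_support_iff, MvPolynomial.coeff_sub, MvPolynomial.coeff_X,
          MvPolynomial.coeff_one, if_pos rfl, if_neg hne, sub_zero]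
        exact one_ne_zero
      have := MvPolynomial.monomial_le_degreeOf l hmem
      simpa using this
    · exact Nat.zero_le _
  have hdeg : ∀ n : Fin 2, 2 + E.degreeOf n ≤ F.degreeOf n := by
    intro n
    rw [hE, MvPolynomial.degreeOf_mul_eq (mul_ne_zero (mul_ne_zero (hX i) (hX1 i))
      (mul_ne_zero (hX j) (hX1 j))) hE0, MvPolynomial.degreeOf_mul_eq
      (mul_ne_zero (hX i) (hX1 i)) (mul_ne_zero (hX j) (hX1 j)),
      MvPolynomial.degreeOf_mul_eq (hX i) (hX1 i), MvPolynomial.degreeOf_mul_eq (hX j) (hX1 j),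
      MvPolynomial.degreeOf_X, MvPolynomial.degreeOf_X]
    have h1 := hdX1 i n
    have h2 := hdX1 j n
    fin_cases i <;> fin_cases j <;> fin_cases n <;> simp_all <;> omega
  -- the polynomial on the curves
  set H : MvPolynomial (Fin 2) Ω := MvPolynomial.map φ F * G with hH
  have hH0 : H ≠ 0 := by
    refine mul_ne_zero ?_ hG
    intro h
    exact hF0 (MvPolynomial.map_injective φ φ.injective (by rw [h, map_zero]))
  have hHdeg : H.degreeOf j ≤ G.degreeOf j + F.degreeOf j := by
    have d1 := MvPolynomial.degreeOf_mul_le j (MvPolynomial.map φ F) G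
    rw [← hH] at d1
    have d2 : (MvPolynomial.map φ F).degreeOf j ≤ F.degreeOf j := by
      rw [MvPolynomial.degreeOf_le_iff]
      intro m hm
      exact MvPolynomial.degreeOf_le_iff.1 le_rfl m (MvPolynomial.support_map_subset _ _ hm)
    omega
  obtain ⟨R, hR, s, hRs⟩ := exists_onC H hH0 hij hk (Ps.image (Polynomial.map φ)) (by
    rw [Finset.card_image_of_injective _ (Polynomial.map_injective φ φ.injective)]
    omega)
  obtain ⟨P, hP, rfl⟩ := Finset.mem_image.1 hR
  obtain ⟨hP0, ⟨Q, hPQ⟩, hPm⟩ := hPs P hP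
  set a := P.natDegree with ha
  have hX0 : X ∣ P - 1 := by
    rw [X_dvd_iff, coeff_zero_eq_eval_zero, eval_sub, eval_one, hP0, sub_self]
  obtain ⟨W, hW⟩ := hX0
  have hWa : W.natDegree ≤ a - 1 := by
    by_cases hW0 : W = 0
    · rw [hW0, natDegree_zero]; exact Nat.zero_le _
    · have h1 : (P - 1).natDegree = 1 + W.natDegree := by
        rw [hW, natDegree_X_mul hW0]
        omega
      have h2 : (P - 1).natDegree ≤ a := by
        refine (natDegree_sub_le _ _).trans ?_
        simp [ha]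
      omega
  -- the two factors
  have hk0 : k ≠ 0 := by omega
  have hd1 : (1 - X ^ k : K[X]).natDegree = k := by
    have : (1 - X ^ k : K[X]) = -(X ^ k - 1) := by ring
    rw [this, natDegree_neg]
    exact natDegree_X_pow_sub_C (n := k) (r := (1 : K))
  have hne1 : (1 - X ^ k : K[X]) ≠ 0 := by
    intro h
    rw [h, natDegree_zero] at hd1
    omega
  have hPne : P ≠ 0 := by
    rintro rfl
    rw [zero_mul] at hPQ
    exact hne1 hPQ
  have hQne : Q ≠ 0 := by
    rintro rfl
    rw [mul_zero] at hPQ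
    exact hne1 hPQ
  have hQdeg : Q.natDegree = k - a ∧ a ≤ k := by
    have := natDegree_mul hPne hQne
    rw [← hPQ, hd1] at this
    omega
  -- estimates
  obtain ⟨c1, hc1⟩ := count_le hij P Q W hPQ.symm hW hWa le_rfl F E hE
  obtain ⟨c2, hc2⟩ := height_eval_le P (n := a) le_rfl
  obtain ⟨c3, hc3⟩ := height_eval_le Q (n := k - a) hQdeg.1.le
  set d : ℝ := (totalWeight K : ℝ) with hd
  have hdN : (Module.finrank ℚ K : ℝ) = d := weight_eq.symm
  have hd0 : 0 < d := by
    rw [← hdN]
    exact_mod_cast Module.finrank_pos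
  rw [hdN] at hεk ⊢
  set ε' : ℝ := max ε 0 with hε'
  have hε'0 : 0 ≤ ε' := le_max_right _ _
  have hkm : (0 : ℝ) < (k : ℝ) + m := by
    have : (0 : ℝ) < k := by exact_mod_cast (by omega : 0 < k)
    positivity
  have ham : (a : ℝ) ≤ m := by exact_mod_cast hPm
  have hε'k : ε' * (k + a) < d := by
    have h1 : ε' * (k + a) ≤ ε' * (k + m) := mul_le_mul_of_nonneg_left (by linarith) hε'0
    rcases max_cases ε 0 with ⟨h, _⟩ | ⟨h, _⟩
    · rw [hε', h] at h1 ⊢; linarith
    · rw [hε', h]; linarith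
  set δ : ℝ := d - ε' * (k + a) with hδ
  have hδ0 : 0 < δ := by linarith
  -- the parameter
  have h2ord : ∀ n : ℕ, 0 < n → (2 : K) ^ n ≠ 1 := by
    intro n hn h
    have h1 : ((2 ^ n : ℕ) : K) = ((1 : ℕ) : K) := by push_cast; exact h
    have h2 : 2 ^ n = 1 := Nat.cast_injective h1
    have := Nat.one_lt_two_pow (n := n) (by omega)
    omega
  have hev1 := eventually_unit _ hRs (two_ne_zero (α := K)) h2ord
  set ej : ℝ := (E.degreeOf j : ℝ) with hej
  set ei : ℝ := (E.degreeOf i : ℝ) with hei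
  set C1 : ℝ := c1 + ((F.degreeOf j : ℝ) - 1) * (d * Real.log 2 + c3) +
    ε' / d * c2 + |C| with hC1
  obtain ⟨q, hq1, hq2⟩ := (hev1.and (Filter.eventually_ge_atTop
    (⌈(C1 + 1) / (δ * Real.log 2)⌉₊ + 1))).exists
  set t : ℕ := 2 ^ q with ht
  have hq0 : 1 ≤ q := by omega
  have ht2 : 2 ≤ t := by
    calc 2 = 2 ^ 1 := rfl
      _ ≤ 2 ^ q := Nat.pow_le_pow_right (by omega) hq0
  have htR : (2 : ℝ) ≤ t := by exact_mod_cast ht2
  set x := xp i k P (t : K) with hx
  have hxi : x i = (t : K) ^ k := by simp [hx, xp]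
  have hxj : x j = P.eval (t : K) := by simp [hx, xp, hij.symm]
  have hHx : MvPolynomial.eval (fun l => φ (x l)) H ≠ 0 := by
    have e1 : (2 : K) ^ q = ((t : ℕ) : K) := by rw [ht]; push_cast; rfl
    rw [onC_eval, e1] at hq1
    convert hq1 using 2
    congr 1
    funext l
    by_cases hl : l = i
    · subst hl
      rw [if_pos rfl, hxi, map_pow]
    · have hlj : l = j := eq_of_ne hij hl
      rw [if_neg hl, if_pos hlj, hlj, hxj, Polynomial.eval_map, Polynomial.eval₂_at_apply]
  rw [hH, map_mul] at hHx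
  have hFx : MvPolynomial.eval x F ≠ 0 := by
    intro h0
    apply left_ne_zero_of_mul hHx
    rw [MvPolynomial.eval_map]
    have h2 : φ (MvPolynomial.eval x F) = MvPolynomial.eval₂ φ (fun l => φ (x l)) F := by
      have h3 : MvPolynomial.eval x F = MvPolynomial.eval₂ (RingHom.id K) x F := rfl
      rw [h3, MvPolynomial.hom_eval₂, RingHom.comp_id]
    rw [← h2, h0, map_zero]
  refine ⟨x, hFx, right_ne_zero_of_mul hHx, ?_⟩
  have ha1 : 1 ≤ a := by
    by_contra hcon
    have ha0 : a = 0 := by omega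
    apply hFx
    have hPC : P = Polynomial.C (P.coeff 0) := eq_C_of_natDegree_eq_zero (by rw [← ha]; exact ha0)
    have hP1 : P.eval (t : K) = 1 := by
      rw [hPC, eval_C, coeff_zero_eq_eval_zero, hP0]
    rw [hE, map_mul, map_mul, map_mul (MvPolynomial.eval x) (MvPolynomial.X j), map_sub,
      MvPolynomial.eval_X, hxj, hP1, map_one]
    ring
  have g1 := hc1 q hFx
  have g2 := hc2 t (by omega)
  have g3 := hc3 t (by omega)
  have hlogt : 0 < Real.log t := Real.log_pos (by linarith)
  have hhi : logHeight₁ (x i) = k * (d * Real.log t) := by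
    rw [hxi, logHeight₁_pow, logHeight₁_nat (by omega)]
  -- lower bound for the height of `P(t)`
  have hPQt : P.eval (t : K) * Q.eval (t : K) = 1 - (t : K) ^ k := by
    have := congrArg (Polynomial.eval (t : K)) hPQ
    simpa using this.symm
  have g4 : d * (k * Real.log t - Real.log 2) ≤
      logHeight₁ (P.eval (t : K)) + logHeight₁ (Q.eval (t : K)) := by
    have h1 := logHeight₁_mul_le (P.eval (t : K)) (Q.eval (t : K))
    rw [hPQt] at h1
    have htk : 2 ≤ t ^ k := by
      calc 2 ≤ t := ht2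
        _ = t ^ 1 := (pow_one t).symm
        _ ≤ t ^ k := Nat.pow_le_pow_right (by omega) hk
    have h2 : logHeight₁ (1 - (t : K) ^ k) = d * Real.log ((t ^ k - 1 : ℕ) : ℝ) := by
      have e : 1 - (t : K) ^ k = -((t ^ k - 1 : ℕ) : K) := by
        rw [Nat.cast_sub (by omega)]
        push_cast
        ring
      rw [e, logHeight₁_neg, logHeight₁_nat (by omega)]
    rw [h2] at h1
    refine le_trans (mul_le_mul_of_nonneg_left ?_ hd0.le) h1
    rw [← Real.log_pow, ← Real.log_div (by positivity) (by norm_num)]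
    refine Real.log_le_log (by positivity) ?_
    rw [Nat.cast_sub (by omega)]
    push_cast
    have : (2 : ℝ) ≤ (t : ℝ) ^ k := by exact_mod_cast htk
    linarith
  have hka : ((k - a : ℕ) : ℝ) = k - a := by rw [Nat.cast_sub hQdeg.2]
  have ha1' : ((a - 1 : ℕ) : ℝ) = a - 1 := by rw [Nat.cast_sub ha1]; simp
  rw [hka] at g3
  rw [ha1'] at g1
  have g5 : d * (a * Real.log t) - (d * Real.log 2 + c3) ≤ logHeight₁ (x j) := by
    rw [hxj]
    have : d * (k * Real.log t - Real.log 2) - (d * ((k - a) * Real.log t) + c3) =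
        d * (a * Real.log t) - (d * Real.log 2 + c3) := by ring
    linarith
  rw [sum_two hij, sum_two hij]
  rw [hhi]
  have hdi : 1 + ei ≤ (F.degreeOf i : ℝ) - 1 := by
    have : ((2 + E.degreeOf i : ℕ) : ℝ) ≤ (F.degreeOf i : ℝ) := by exact_mod_cast hdeg i
    push_cast at this
    linarith
  have hdj : 1 + ej ≤ (F.degreeOf j : ℝ) - 1 := by
    have : ((2 + E.degreeOf j : ℕ) : ℝ) ≤ (F.degreeOf j : ℝ) := by exact_mod_cast hdeg j
    push_cast at this
    linarith
  have hej0 : 0 ≤ ej := Nat.cast_nonneg _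
  have hei0 : 0 ≤ ei := Nat.cast_nonneg _
  set T := d * Real.log t with hT
  have hT0 : 0 < T := mul_pos hd0 hlogt
  have hk0' : (0 : ℝ) ≤ k := Nat.cast_nonneg _
  have ha0' : (0 : ℝ) ≤ a := Nat.cast_nonneg _
  -- main terms
  have m1 : (1 + ei) * (k * T) ≤ ((F.degreeOf i : ℝ) - 1) * (k * T) :=
    mul_le_mul_of_nonneg_right hdi (by positivity)
  have m2 : ((F.degreeOf j : ℝ) - 1) * (a * T - (d * Real.log 2 + c3)) ≤
      ((F.degreeOf j : ℝ) - 1) * logHeight₁ (x j) := by
    refine mul_le_mul_of_nonneg_left ?_ (by linarith)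
    have : d * (a * Real.log t) = a * T := by rw [hT]; ring
    linarith
  have m3 : (1 + ej) * (a * T) ≤ ((F.degreeOf j : ℝ) - 1) * (a * T) :=
    mul_le_mul_of_nonneg_right hdj (by positivity)
  have hxj0 : 0 ≤ logHeight₁ (x j) := zero_le_logHeight₁ _
  have m4 : ε * (k * T / d + logHeight₁ (x j) / d) ≤ ε' / d * (k * T + (a * T + c2)) := by
    have h1 : 0 ≤ k * T / d + logHeight₁ (x j) / d := by positivity
    have h2 : logHeight₁ (x j) ≤ a * T + c2 := by
      rw [hxj]
      have : d * (a * Real.log t) = a * T := by rw [hT]; ring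
      linarith
    calc ε * (k * T / d + logHeight₁ (x j) / d) ≤ ε' * (k * T / d + logHeight₁ (x j) / d) :=
          mul_le_mul_of_nonneg_right (le_max_left _ _) h1
      _ = ε' / d * (k * T + logHeight₁ (x j)) := by ring
      _ ≤ _ := mul_le_mul_of_nonneg_left (by linarith) (by positivity)
  have m5 : C1 < δ * Real.log t := by
    have h1 : (C1 + 1) / (δ * Real.log 2) ≤ q := by
      refine (Nat.le_ceil _).trans ?_
      exact_mod_cast (by omega : ⌈(C1 + 1) / (δ * Real.log 2)⌉₊ ≤ q)
    have hl2 : 0 < Real.log 2 := Real.log_pos (by norm_num)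
    rw [div_le_iff₀ (by positivity)] at h1
    have h2 : Real.log t = q * Real.log 2 := by rw [ht]; push_cast; rw [Real.log_pow]
    rw [h2]
    have h3 : δ * (q * Real.log 2) = q * (δ * Real.log 2) := by ring
    rw [h3]
    linarith
  have m6 : δ * Real.log t = T - ε' / d * (k * T + a * T) := by
    rw [hδ, hT]
    field_simp
  have m7 : d * ((k + ((a : ℝ) - 1) + (ei * k + ej * a)) * Real.log t) =
      (k + ((a : ℝ) - 1) + (ei * k + ej * a)) * T := by rw [hT]; ring
  have m8 : ε' / d * (k * T + (a * T + c2)) = ε' / d * (k * T + a * T) + ε' / d * c2 := by ring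
  have hCabs := neg_abs_le C
  have hCabs' := le_abs_self C
  have g1' : ∑ᶠ v : HeightOneSpectrum (𝓞 K), min (ell v) (lam v F x) ≤
      (k + ((a : ℝ) - 1) + (ei * k + ej * a)) * T + c1 := by
    rw [← m7]
    exact g1
  rw [m8] at m4
  rw [m6, hC1] at m5
  linarith

end Pool.Agent.W231.G
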