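import Pool.Agent.W231.V.Arith
import Pool.Agent.W231.V.Quad

set_option autoImplicit false

/-!
The truncated counting function along the curves `x_i = t ^ k`, `x_j = P(t)`, `P Q = 1 - X ^ k`.
-/

namespace Pool.Agent.W231.G

open NumberField IsDedekindDomain Height Finset Polynomial Pool.Agent.W231.V

variable {K : Type*} [Field K] [NumberField K]

/-- heights of values of a polynomial at positive integers -/
lemma height_eval_le (R : K[X]) {n : ℕ} (hn : R.natDegree ≤ n) : ∃ C : ℝ, ∀ t : ℕ, 1 ≤ t →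
    logHeight₁ (R.eval (t : K)) ≤ (totalWeight K : ℝ) * (n * Real.log t) + C := by
  set A : Fin 2 × Fin (n + 1) → K := fun p => ![R.coeff p.2, if p.2 = 0 then 1 else 0] p.1 with hA
  refine ⟨totalWeight K * Real.log (Nat.card (Fin (n + 1))) + logHeight A, fun t ht => ?_⟩
  have h1 := logHeight_linearMap_apply_le A (fun i : Fin (n + 1) => (t : K) ^ (i : ℕ))
  have h2 : (fun j => ∑ i, A (j, i) * (t : K) ^ (i : ℕ)) = ![R.eval (t : K), 1] := by
    funext j
    fin_cases j
    · simp only [hA]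
      rw [Polynomial.eval_eq_sum_range' (Nat.lt_succ_of_le hn),
        ← Fin.sum_univ_eq_sum_range (fun i => R.coeff i * (t : K) ^ i)]
      rfl
    · simp only [hA]
      change ∑ i : Fin (n + 1), (if i = 0 then (1 : K) else 0) * (t : K) ^ (i : ℕ) = 1
      simp
  rw [h2, ← logHeight₁_eq_logHeight] at h1
  have ht' : (1 : ℝ) ≤ t := by exact_mod_cast ht
  have h3 : logHeight (fun i : Fin (n + 1) => (t : K) ^ (i : ℕ)) ≤
      (totalWeight K : ℝ) * Real.log ((t : ℝ) ^ n) := by
    refine logHeight_le_of ?_ (by positivity) ?_ ?_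
    · intro h
      have := congrFun h 0
      simp at this
    · intro w i
      have e : w (t : K) = t := by simp
      rw [map_pow, e]
      exact pow_le_pow_right₀ ht' (Nat.lt_succ_iff.1 i.2)
    · intro v i
      rw [map_pow]
      exact pow_le_one₀ ((fv v).nonneg _) (fv_nat v t)
  rw [Real.log_pow] at h3
  linarith

lemma fv_poly_le (v : HeightOneSpectrum (𝓞 K)) (R : K[X]) (hR : ∀ n, fv v (R.coeff n) ≤ 1) {t : K}
    (ht : fv v t ≤ 1) : fv v (R.eval t) ≤ 1 := by
  rw [Polynomial.eval_eq_sum_range]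
  refine fv_sum_le v _ _ fun n _ => ?_
  rw [map_mul, map_pow]
  exact mul_le_one₀ (hR n) (pow_nonneg ((fv v).nonneg _) _) (pow_le_one₀ ((fv v).nonneg _) ht)

lemma fv_mv_le {σ : Type*} [Fintype σ] (v : HeightOneSpectrum (𝓞 K)) (E : MvPolynomial σ K)
    (hE : ∀ m, fv v (E.coeff m) ≤ 1) {x : σ → K} (hx : ∀ l, fv v (x l) ≤ 1) :
    fv v (MvPolynomial.eval x E) ≤ 1 := by
  rw [MvPolynomial.eval_eq']
  refine fv_sum_le v _ _ fun m _ => ?_
  rw [map_mul, map_prod]
  refine mul_le_one₀ (hE m) (Finset.prod_nonneg fun l _ => (fv v).nonneg _)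
    (Finset.prod_le_one (fun l _ => (fv v).nonneg _) fun l _ => ?_)
  rw [map_pow]
  exact pow_le_one₀ ((fv v).nonneg _) (hx l)

/-- outside finitely many primes all the given numbers are integral and the nonzero ones units -/
lemma exists_bad (cs : Finset K) : ∃ T0 : Finset (HeightOneSpectrum (𝓞 K)), ∀ v, v ∉ T0 →
    ∀ c ∈ cs, (c ≠ 0 → fv v c = 1) ∧ fv v c ≤ 1 := by
  classical
  have hbadfin : {v : HeightOneSpectrum (𝓞 K) | ∃ x ∈ cs, x ≠ 0 ∧ fv v x ≠ 1}.Finite := by
    have : {v : HeightOneSpectrum (𝓞 K) | ∃ x ∈ cs, x ≠ 0 ∧ fv v x ≠ 1} ⊆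
        ⋃ x ∈ cs.filter (fun x => x ≠ 0), {v : HeightOneSpectrum (𝓞 K) | fv v x ≠ 1} := by
      rintro v ⟨x, hx, hx0, hx1⟩
      simp only [Set.mem_iUnion, Finset.mem_filter]
      exact ⟨x, ⟨hx, hx0⟩, hx1⟩
    refine Set.Finite.subset (Set.Finite.biUnion (Finset.finite_toSet _) fun x hx => ?_) this
    exact fv_support_finite (Finset.mem_filter.1 (Finset.mem_coe.1 hx)).2
  refine ⟨hbadfin.toFinset, fun v hv c hc => ?_⟩
  have h1 : c ≠ 0 → fv v c = 1 := by
    intro hc0
    by_contra h
    exact hv (hbadfin.mem_toFinset.2 ⟨c, hc, hc0, h⟩)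
  refine ⟨h1, ?_⟩
  by_cases hc0 : c = 0
  · rw [hc0, map_zero]; exact zero_le_one
  · exact (h1 hc0).le

/-- the local height of the divisor at a prime -/
noncomputable def lam (v : HeightOneSpectrum (𝓞 K)) (F : MvPolynomial (Fin 2) K) (x : Fin 2 → K) :
    ℝ :=
  -Real.log (FinitePlace.mk v (MvPolynomial.eval x F) /
    (max (FinitePlace.mk v (x 0)) 1 ^ (F.degreeOf 0 + 1) *
      max (FinitePlace.mk v (x 1)) 1 ^ (F.degreeOf 1 + 1)))

/-- the point with parameter `t` -/
noncomputable def xp (i : Fin 2) (k : ℕ) (P : K[X]) (t : K) : Fin 2 → K :=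
  fun l => if l = i then t ^ k else P.eval t

/-- The truncated counting function along the curve. -/
theorem count_le {i j : Fin 2} (hij : i ≠ j) {k a : ℕ} (P Q W : K[X])
    (hPQ : P * Q = 1 - X ^ k) (hW : P - 1 = X * W) (hWa : W.natDegree ≤ a - 1)
    (hPa : P.natDegree ≤ a) (F E : MvPolynomial (Fin 2) K)
    (hF : F = (MvPolynomial.X i * (MvPolynomial.X i - 1)) *
      (MvPolynomial.X j * (MvPolynomial.X j - 1)) * E) :
    ∃ C : ℝ, ∀ q : ℕ, MvPolynomial.eval (xp i k P ((2 ^ q : ℕ) : K)) F ≠ 0 →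
      ∑ᶠ v : HeightOneSpectrum (𝓞 K), min (ell v) (lam v F (xp i k P ((2 ^ q : ℕ) : K))) ≤
        (totalWeight K : ℝ) * ((k + ((a - 1 : ℕ) : ℝ) + (E.degreeOf i * k + E.degreeOf j * a)) *
          Real.log ((2 ^ q : ℕ) : ℝ)) + C := by
  classical
  -- the restriction of `E`
  set RE : K[X] := MvPolynomial.aeval (fun l => if l = i then (X : K[X]) ^ k else P) E with hRE
  have hREv : ∀ t : K, RE.eval t = MvPolynomial.eval (xp i k P t) E := by
    intro t
    have h1 : RE.eval t = evalRingHom t RE := rfl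
    rw [h1, hRE, MvPolynomial.aeval_def, MvPolynomial.hom_eval₂]
    have h2 : (evalRingHom t).comp (algebraMap K K[X]) = RingHom.id K := by ext c; simp
    rw [h2]
    change _ = MvPolynomial.eval₂ (RingHom.id K) _ E
    congr 1
    funext l
    unfold xp
    split_ifs <;> simp
  have hREdeg : RE.natDegree ≤ E.degreeOf i * k + E.degreeOf j * a := by
    rw [hRE, MvPolynomial.aeval_def, MvPolynomial.eval₂_eq']
    refine natDegree_sum_le_of_forall_le _ _ fun m hm => ?_
    refine (natDegree_C_mul_le _ _).trans ?_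
    have hm' : ∀ l, m l ≤ E.degreeOf l := fun l => MvPolynomial.degreeOf_le_iff.1 le_rfl m hm
    have e : ∏ l : Fin 2, (if l = i then (X : K[X]) ^ k else P) ^ m l =
        ((X : K[X]) ^ k) ^ m i * P ^ m j := by
      rw [← Finset.prod_subset (Finset.subset_univ {i, j}) (by
        intro l _ hl
        exfalso
        apply hl
        rw [Finset.mem_insert, Finset.mem_singleton]
        fin_cases i <;> fin_cases j <;> fin_cases l <;> simp_all), Finset.prod_pair hij,
        if_pos rfl, if_neg hij.symm]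
    rw [e]
    refine (natDegree_mul_le).trans (add_le_add ?_ ?_)
    · rw [← pow_mul, natDegree_X_pow, mul_comm]
      exact Nat.mul_le_mul_right _ (hm' i)
    · refine natDegree_pow_le.trans ?_
      exact Nat.mul_le_mul (hm' j) hPa
  -- heights
  obtain ⟨C1, hC1⟩ := height_eval_le (1 - X ^ k : K[X]) (n := k) (by compute_degree)
  obtain ⟨C2, hC2⟩ := height_eval_le W hWa
  obtain ⟨C3, hC3⟩ := height_eval_le RE hREdeg
  -- the bad primes
  set cs : Finset K := {2} ∪ P.support.image P.coeff ∪ Q.support.image Q.coeff ∪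
    W.support.image W.coeff ∪ E.support.image E.coeff with hcs
  obtain ⟨T0, hT0⟩ := exists_bad cs
  have hm2 : (2 : K) ∈ cs := by simp [hcs]
  have hcf : ∀ R : K[X], R.support.image R.coeff ⊆ cs → ∀ v ∉ T0, ∀ n, fv v (R.coeff n) ≤ 1 := by
    intro R hR v hv n
    by_cases h : R.coeff n = 0
    · rw [h, map_zero]; exact zero_le_one
    · exact (hT0 v hv _ (hR (Finset.mem_image.2 ⟨n, Polynomial.mem_support_iff.2 h, rfl⟩))).2
  have hcP := hcf P (by intro y hy; simp only [hcs, Finset.mem_union]; tauto)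
  have hcQ := hcf Q (by intro y hy; simp only [hcs, Finset.mem_union]; tauto)
  have hcW := hcf W (by intro y hy; simp only [hcs, Finset.mem_union]; tauto)
  have hcE : ∀ v ∉ T0, ∀ m, fv v (E.coeff m) ≤ 1 := by
    intro v hv m
    by_cases h : E.coeff m = 0
    · rw [h, map_zero]; exact zero_le_one
    · refine (hT0 v hv _ ?_).2
      simp only [hcs, Finset.mem_union]
      exact Or.inr (Finset.mem_image.2 ⟨m, MvPolynomial.mem_support_iff.2 h, rfl⟩)
  refine ⟨∑ v ∈ T0, ell v + C1 + C2 + C3, fun q hFx => ?_⟩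
  set t : ℕ := 2 ^ q with ht
  have ht1 : 1 ≤ t := Nat.one_le_two_pow
  set x := xp i k P (t : K) with hx
  have hxi : x i = (t : K) ^ k := by simp [hx, xp]
  have hxj : x j = P.eval (t : K) := by simp [hx, xp, hij.symm]
  -- values
  have hPQt : P.eval (t : K) * Q.eval (t : K) = 1 - (t : K) ^ k := by
    have := congrArg (Polynomial.eval (t : K)) hPQ
    simpa using this
  have hWt : P.eval (t : K) - 1 = t * W.eval (t : K) := by
    have := congrArg (Polynomial.eval (t : K)) hW
    simpa using this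
  have hFev : MvPolynomial.eval x F = (t : K) ^ k * ((t : K) ^ k - 1) *
      (P.eval (t : K) * (t * W.eval (t : K))) * RE.eval (t : K) := by
    rw [hF, hREv, map_mul, map_mul, map_mul, map_mul, map_sub, map_sub, map_one,
      MvPolynomial.eval_X, MvPolynomial.eval_X, hxi, hxj, hWt]
  rw [hFev] at hFx
  have n1 : 1 - (t : K) ^ k ≠ 0 := by
    intro h
    apply hFx
    have : (t : K) ^ k - 1 = 0 := by linear_combination -h
    rw [this]; ring
  have n2 : W.eval (t : K) ≠ 0 := by
    intro h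
    apply hFx
    rw [h]; ring
  have n3 : RE.eval (t : K) ≠ 0 := right_ne_zero_of_mul hFx
  have hft : ∀ v ∉ T0, fv v (t : K) = 1 := by
    intro v hv
    have : (t : K) = 2 ^ q := by rw [ht]; push_cast; rfl
    rw [this, map_pow, (hT0 v hv 2 hm2).1 two_ne_zero, one_pow]
  -- good primes
  have key : ∀ v ∉ T0, (fv v ((1 - X ^ k : K[X]).eval (t : K)) < 1 ∨ fv v (W.eval (t : K)) < 1 ∨
      fv v (RE.eval (t : K)) < 1) ∨ min (ell v) (lam v F x) = 0 := by
    intro v hv
    by_cases hcon : fv v ((1 - X ^ k : K[X]).eval (t : K)) < 1 ∨ fv v (W.eval (t : K)) < 1 ∨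
      fv v (RE.eval (t : K)) < 1
    · exact Or.inl hcon
    right
    push Not at hcon
    obtain ⟨q1, q2, q3⟩ := hcon
    have ftv := hft v hv
    have i1 : fv v (P.eval (t : K)) ≤ 1 := fv_poly_le v P (hcP v hv) ftv.le
    have i2 : fv v (Q.eval (t : K)) ≤ 1 := fv_poly_le v Q (hcQ v hv) ftv.le
    have i3 : fv v (W.eval (t : K)) ≤ 1 := fv_poly_le v W (hcW v hv) ftv.le
    have i0 : ∀ l, fv v (x l) ≤ 1 := by
      intro l
      rw [hx]
      unfold xp
      split_ifs
      · rw [map_pow, ftv, one_pow]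
      · exact i1
    have i4 : fv v (RE.eval (t : K)) ≤ 1 := by
      rw [hREv]
      exact fv_mv_le v E (hcE v hv) i0
    have q1' : (1 - X ^ k : K[X]).eval (t : K) = 1 - (t : K) ^ k := by simp
    rw [q1'] at q1
    have j1 : fv v (1 - (t : K) ^ k) = fv v (P.eval (t : K)) * fv v (Q.eval (t : K)) := by
      rw [← map_mul, hPQt]
    have n4 := (fv v).nonneg (P.eval (t : K))
    have n5 := (fv v).nonneg (Q.eval (t : K))
    have j2 : fv v (P.eval (t : K)) = 1 := by nlinarith
    have j3 : fv v (Q.eval (t : K)) = 1 := by nlinarith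
    have j4 : fv v (1 - (t : K) ^ k) = 1 := by rw [j1, j2, j3, one_mul]
    have j5 : fv v ((t : K) ^ k - 1) = 1 := by
      rw [← j4, ← (fv v).map_neg]
      congr 1
      ring
    have hval : fv v (MvPolynomial.eval x F) = 1 := by
      rw [hFev, map_mul, map_mul, map_mul, map_mul, map_mul, map_pow, ftv, j5, j2,
        le_antisymm i3 q2, le_antisymm i4 q3]
      norm_num
    have hl : lam v F x = 0 := by
      unfold lam
      have e1 : max (FinitePlace.mk v (x 0)) 1 = 1 := max_eq_right (i0 0)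
      have e2 : max (FinitePlace.mk v (x 1)) 1 = 1 := max_eq_right (i0 1)
      have e3 : FinitePlace.mk v (MvPolynomial.eval x F) = 1 := hval
      rw [e1, e2, e3, one_pow, one_pow]
      norm_num
    rw [hl]
    exact min_eq_right (ell_pos v).le
  -- the sum
  have hfin : {v : HeightOneSpectrum (𝓞 K) | v ∈ T0 ∨
      (fv v ((1 - X ^ k : K[X]).eval (t : K)) < 1 ∨ fv v (W.eval (t : K)) < 1 ∨
      fv v (RE.eval (t : K)) < 1)}.Finite := by
    have n1' : (1 - X ^ k : K[X]).eval (t : K) ≠ 0 := by simpa using n1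
    refine (T0.finite_toSet.union ((fv_support_finite n1').union ((fv_support_finite n2).union
      (fv_support_finite n3)))).subset ?_
    rintro v (h | h | h | h)
    · exact Or.inl h
    · exact Or.inr (Or.inl h.ne)
    · exact Or.inr (Or.inr (Or.inl h.ne))
    · exact Or.inr (Or.inr (Or.inr h.ne))
  have hsum : ∑ᶠ v : HeightOneSpectrum (𝓞 K), min (ell v) (lam v F x) =
      ∑ v ∈ hfin.toFinset, min (ell v) (lam v F x) := by
    refine finsum_eq_sum_of_support_subset _ fun v hv => ?_
    rw [Set.Finite.coe_toFinset]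
    by_contra hc
    have hc' : ¬ (v ∈ T0 ∨ (fv v ((1 - X ^ k : K[X]).eval (t : K)) < 1 ∨
      fv v (W.eval (t : K)) < 1 ∨ fv v (RE.eval (t : K)) < 1)) := hc
    rw [not_or] at hc'
    rcases key v hc'.1 with h | h
    · exact hc'.2 h
    · exact hv h
  rw [hsum]
  refine (Finset.sum_le_sum fun v _ => min_le_left (ell v) (lam v F x)).trans ?_
  have h1 := sum_union_le (Finset.univ : Finset (Fin 3))
    ![(1 - X ^ k : K[X]).eval (t : K), W.eval (t : K), RE.eval (t : K)] (by
      intro l _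
      fin_cases l
      · simpa using n1
      · exact n2
      · exact n3) T0 hfin.toFinset (by
      intro v hv
      rw [Set.Finite.mem_toFinset] at hv
      rcases hv with h | h | h | h
      · exact Or.inl h
      · exact Or.inr ⟨0, Finset.mem_univ _, h⟩
      · exact Or.inr ⟨1, Finset.mem_univ _, h⟩
      · exact Or.inr ⟨2, Finset.mem_univ _, h⟩)
  rw [Fin.sum_univ_three] at h1
  have g1 := hC1 t ht1
  have g2 := hC2 t ht1
  have g3 := hC3 t ht1
  push_cast at g1 g2 g3
  refine h1.trans ?_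
  change ∑ v ∈ T0, ell v + (logHeight₁ ((1 - X ^ k : K[X]).eval (t : K)) +
    logHeight₁ (W.eval (t : K)) + logHeight₁ (RE.eval (t : K))) ≤ _
  nlinarith

end Pool.Agent.W231.G
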